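import Pool.Agent.H952R3.Ext.Stmts

set_option autoImplicit false

/-!
Tasks U2 and U4 of the project H952-RADON.
-/

namespace Pool.Agent.H878.Radon

open Pool.Agent.Helper766.Rad Pool.Agent.H952R3.Ext
open Pool.Agent.Helper766.Rad.Plane.R3

variable {ι : Type} [DecidableEq ι]

theorem three_le_card {M : RankFn ι} {A C : Finset ι} (hs : Simple M A) (hC : C ⊆ A)
    (h : IsCirc M C) : 3 ≤ C.card := by
  have h1 := h.r_add_one
  by_cases h2 : 2 ≤ C.card
  · have := two_le M hs hC h2
    omega
  · have h3 : C.card = 1 := by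
      have := Finset.card_pos.2 h.nonempty
      omega
    obtain ⟨a, rfl⟩ := Finset.card_eq_one.1 h3
    have := hs.1 a (hC (Finset.mem_singleton_self a))
    omega

theorem circs_sub {M : RankFn ι} {A : Finset ι} (hs : Simple M A) (hr : M.r A = 3) :
    circs M A ⊆ tri M A ∪ quads M A := by
  intro C hC
  rw [Plane.R3.mem_circs] at hC
  have h1 := hC.2.r_add_one
  have h2 := three_le_card hs hC.1 hC.2
  have h3 := M.mono C A hC.1
  rw [Finset.mem_union]
  obtain h | h : C.card = 3 ∨ C.card = 4 := by omega
  · left
    unfold tri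
    rw [Finset.mem_filter, Finset.mem_powersetCard]
    exact ⟨⟨hC.1, h⟩, by omega⟩
  · right
    unfold quads
    rw [Finset.mem_filter, Finset.mem_powersetCard]
    refine ⟨⟨hC.1, h⟩, fun e he => ?_⟩
    rw [hC.2.2 e he, Finset.card_erase_of_mem he]
    omega

theorem quads_tri_le {M : RankFn ι} {A : Finset ι} (hs : Simple M A)
    (hno : ∀ F ⊆ A, F.card = 4 → M.r F = 3) :
    (quads M A).card + (tri M A).card * (A.card - 3) ≤ A.card.choose 4 := by
  set I : Finset (Finset ι) := (tri M A).biUnion (fun T => (A \ T).image (fun x => insert x T))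
    with hI
  have htri : ∀ T ∈ tri M A, T ⊆ A ∧ T.card = 3 ∧ M.r T = 2 := by
    intro T hT
    unfold tri at hT
    rw [Finset.mem_filter, Finset.mem_powersetCard] at hT
    exact ⟨hT.1.1, hT.1.2, hT.2⟩
  have hdisj : ((tri M A : Finset (Finset ι)) : Set (Finset ι)).PairwiseDisjoint
      (fun T => (A \ T).image (fun x => insert x T)) := by
    intro T hT T' hT' hne
    rw [Function.onFun, Finset.disjoint_left]
    intro F hF hF'
    rw [Finset.mem_image] at hF hF'
    obtain ⟨x, hx, rfl⟩ := hF
    obtain ⟨y, hy, hxy⟩ := hF'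
    have h1 := tri_inter M A hs hno (Finset.mem_coe.1 hT) (Finset.mem_coe.1 hT') hne
    have h2 := htri T (Finset.mem_coe.1 hT)
    have h3 := htri T' (Finset.mem_coe.1 hT')
    have h4 : T ∪ T' ⊆ insert x T := by
      apply Finset.union_subset (Finset.subset_insert x T)
      rw [← hxy]
      exact Finset.subset_insert y T'
    have h5 := Finset.card_le_card h4
    have h6 := Finset.card_insert_le x T
    have h7 := Finset.card_union_add_card_inter T T'
    omega
  have hcard : I.card = (tri M A).card * (A.card - 3) := by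
    rw [hI, Finset.card_biUnion hdisj]
    rw [Finset.sum_congr rfl (g := fun _ => A.card - 3)]
    · rw [Finset.sum_const, smul_eq_mul]
    · intro T hT
      have h2 := htri T hT
      rw [Finset.card_image_of_injOn, Finset.card_sdiff_of_subset h2.1, h2.2.1]
      intro x hx y _ hxy
      rw [Finset.coe_sdiff, Set.mem_sdiff] at hx
      exact (Finset.insert_inj (by simpa using hx.2)).1 hxy
  have hdq : Disjoint (quads M A) I := by
    rw [Finset.disjoint_left]
    intro F hF hF'
    rw [hI, Finset.mem_biUnion] at hF'
    obtain ⟨T, hT, hF'⟩ := hF'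
    rw [Finset.mem_image] at hF'
    obtain ⟨x, hx, rfl⟩ := hF'
    unfold quads at hF
    rw [Finset.mem_filter] at hF
    apply hF.2 x (Finset.mem_insert_self x T)
    rw [Finset.erase_insert (Finset.mem_sdiff.1 hx).2]
    exact (htri T hT).2.2
  rw [← hcard, ← Finset.card_union_of_disjoint hdq, ← Finset.card_powersetCard]
  apply Finset.card_le_card
  apply Finset.union_subset
  · exact Finset.filter_subset _ _
  · intro F hF
    rw [hI, Finset.mem_biUnion] at hF
    obtain ⟨T, hT, hF⟩ := hF
    rw [Finset.mem_image] at hF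
    obtain ⟨x, hx, rfl⟩ := hF
    have h2 := htri T hT
    rw [Finset.mem_sdiff] at hx
    rw [Finset.mem_powersetCard, Finset.card_insert_of_notMem hx.2, h2.2.1]
    exact ⟨Finset.insert_subset hx.1 h2.1, rfl⟩

theorem u2 : TaskU2 := by
  intro ι _ M A hs hr h4 hno
  have h1 := Finset.card_le_card (circs_sub hs hr)
  have h2 := Finset.card_union_le (tri M A) (quads M A)
  have h3 := quads_tri_le hs hno
  have h5 : ((A.powersetCard 3).filter (fun T => M.r T = 2)).card = (tri M A).card := rfl
  rw [h5]
  have h6 : (tri M A).card * (A.card - 3) = (tri M A).card + (tri M A).card * (A.card - 4) := by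
    have : A.card - 3 = 1 + (A.card - 4) := by omega
    rw [this, mul_add, mul_one]
  omega

theorem u4 : TaskU4 := by
  intro ι _ M A hs
  refine ⟨fun hr => ?_, fun h1 => ?_, fun hA => ?_⟩
  · rw [← Finset.card_powersetCard]
    apply Finset.card_le_card
    intro C hC
    rw [Plane.R3.mem_circs] at hC
    have h1 := hC.2.r_add_one
    have h2 := three_le_card hs hC.1 hC.2
    have h3 := M.mono C A hC.1
    rw [Finset.mem_powersetCard]
    exact ⟨hC.1, by omega⟩
  · rw [Finset.card_eq_zero, Finset.eq_empty_iff_forall_notMem]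
    intro C hC
    rw [Plane.R3.mem_circs] at hC
    have h2 := three_le_card hs hC.1 hC.2
    have h3 := Finset.card_le_card hC.1
    omega
  · have : circs M A ⊆ {A} := by
      intro C hC
      rw [Plane.R3.mem_circs] at hC
      rw [Finset.mem_singleton]
      exact hA.eq_of_subset hC.2 hC.1
    simpa using Finset.card_le_card this

end Pool.Agent.H878.Radon
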